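import Pool.Agent.P.MP_5d7cf0_gt.Act
import Pool.Agent.P.MP_5d7cf0_gt.Comp
import Pool.Agent.P.MP_5d7cf0_gt.Data
import Pool.Agent.P.MP_5d7cf0_gt.Det
import Pool.Agent.P.MP_5d7cf0_gt.Fm
import Pool.Agent.P.MP_5d7cf0_gt.Hol
import Pool.Agent.P.MP_5d7cf0_gt.IdP
import Pool.Agent.P.MP_5d7cf0_gt.IdT
import Pool.Agent.P.MP_5d7cf0_gt.IneqA
import Pool.Agent.P.MP_5d7cf0_gt.IneqB
import Pool.Agent.P.MP_5d7cf0_gt.Inv
import Pool.Agent.P.MP_5d7cf0_gt.KZ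
import Pool.Agent.P.MP_5d7cf0_gt.Lev
import Pool.Agent.P.MP_5d7cf0_gt.Loc
import Pool.Agent.P.MP_5d7cf0_gt.Lp
import Pool.Agent.P.MP_5d7cf0_gt.Mob
import Pool.Agent.P.MP_5d7cf0_gt.ModA
import Pool.Agent.P.MP_5d7cf0_gt.ModB
import Pool.Agent.P.MP_5d7cf0_gt.NF
import Pool.Agent.P.MP_5d7cf0_gt.NV
import Pool.Agent.P.MP_5d7cf0_gt.Nat
import Pool.Agent.P.MP_5d7cf0_gt.Out
import Pool.Agent.P.MP_5d7cf0_gt.Pi
import Pool.Agent.P.MP_5d7cf0_gt.ProfJ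
import Pool.Agent.P.MP_5d7cf0_gt.ProfK
import Pool.Agent.P.MP_5d7cf0_gt.Prop
import Pool.Agent.P.MP_5d7cf0_gt.RP
import Pool.Agent.P.MP_5d7cf0_gt.RT
import Pool.Agent.P.MP_5d7cf0_gt.Ray
import Pool.Agent.P.MP_5d7cf0_gt.Rm
import Pool.Agent.P.MP_5d7cf0_gt.Seg
import Pool.Agent.P.MP_5d7cf0_gt.Sm
import Pool.Agent.P.MP_5d7cf0_gt.Sol
import Pool.Agent.P.MP_5d7cf0_gt.Sort
import Pool.Agent.P.MP_5d7cf0_gt.Str
import Pool.Agent.P.MP_5d7cf0_gt.Strip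
import Pool.Agent.P.MP_5d7cf0_gt.TabA
import Pool.Agent.P.MP_5d7cf0_gt.TabB
import Pool.Agent.P.MP_5d7cf0_gt.VB
import Pool.Agent.P.MP_5d7cf0_gt.VF
import Pool.Agent.P.MP_5d7cf0_gt.VolI
import Pool.Agent.P.MP_5d7cf0_gt.VolT
import Pool.Agent.P.MP_5d7cf0_gt.Xi

/-!
The moduli space of genus two curves carries a complete, finite volume Riemannian metric with
sectional curvature in `[-a, 0]`.
-/

open Filter Topology
open scoped ContDiff

namespace Pool.Agent.Results.MP_5d7cf0_gt.GenusTwo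

open Pool.Agent.P.MP_5d7cf0_gt

theorem result : ∃ (g : Form) (Γ : E → E → E → E), IsMetric g ∧ IsLC g Γ ∧ Invariant g ∧ Cplt g ∧
    gvol g < ⊤ ∧ ∃ a : ℝ, 0 < a ∧ ∀ x ∈ X, ∀ u v, LinearIndependent ℝ ![u, v] →
      -a ≤ sect g Γ x u v ∧ sect g Γ x u v ≤ 0 := by
  have hN := pNF pAct
  have hStr := pStr pRay pFm
  have hSeg := pSeg pFm hStr
  have hHol := pHol pFm hStr
  have hRP := pRP pPi
  have hRT := pRT pLp
  have hXi := pXi pMob pVint hRP hRT pLp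
  have hD := pData pAct hN pMob pVint (pVF pMob pVB pVint) hXi (pIdP hStr hSeg pPi hRP hXi)
    (pIdT pRay hStr hRT hXi) pTabA (pTabB hRP hRT hXi) pSort (pStrip pFm hStr hSeg pVint) hHol
    (pKZ hHol (pNV hHol hSeg))
  have hNat := pNat pRm
  obtain ⟨g, h1, h2, h3, h4, h5, h6, a, ha, h7⟩ := glue pAct hN hD pProfK pProfJ pSol pCol
    (pSm hN) (pOut hN (pSm hN) (pLoc pModA (pModB pModA pRm pGGsm) hNat pGGnat pGGsm) pIneqA
      (pIneqB pIneqA) pDet) pProp pComp pVolT pVolI hNat pGGnat pGGsm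
  refine ⟨fun x u v => g x u v, chr g,
    ⟨fun u v => (h1.clm_apply contDiffOn_const).clm_apply contDiffOn_const,
      fun x _ u => (g x u).toLinearMap.isLinear, h2, h3⟩, fun x hx u v w => ?_,
    fun φ x hx hφ h => inv_iso pAct h1.continuousOn h4 φ hx hφ h, h5, h6, a, ha,
    fun x hx u v _ => h7 x hx u v⟩
  have hX := pAct.1.mem_nhds hx
  have hg := h1.contDiffAt hX
  have hd : ∀ a b c, dd (fun y => g y a b) x c = fderiv ℝ g x c a b := fun a b c => by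
    have := ((hg.differentiableAt (by simp)).hasFDerivAt.clm_apply
      (hasFDerivAt_const a x)).clm_apply (hasFDerivAt_const b x)
    rw [dd, this.fderiv]
    simp
  beta_reduce
  rw [(pRm g x (hg.of_le (WithTop.coe_le_coe.mpr (le_top (a := (2 : ℕ∞)))))
    (by filter_upwards [hX] with y hy using h2 y hy) (h3 x hx)).1, hd, hd, hd]
  simp [kos]

end Pool.Agent.Results.MP_5d7cf0_gt.GenusTwo
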